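import Pool.Agent.Helper83.T5g.LeafCase
import Pool.Agent.Helper37.T5g.Event
import Pool.Agent.Helper99.T5g.OkF

/-!
# T5g (MP_12a1af), the leaf: few hits of a near pair of states with given joint vectors

The window of a state has one element, so the bound is deterministic.
-/

set_option autoImplicit false

namespace Pool.Agent.Helper83.T5g

open Finset Pool.Agent.Helper27.T4 Pool.Agent.Helper37.T5g
open Pool.Agent.Helper5.ET (mask bb era)
open Pool.Agent.Helper30.T5g (pz QF QT RT BP ez NL exists_late)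
open Pool.Agent.Helper22.HW Pool.Agent.Helper57.T5 Pool.Agent.Helper39.T5
open Pool.Agent.Helper84.T5g Pool.Agent.Helper42.T5.Pr
open Pool.Agent.Helper48.T5g (SplitP DropP SplitP_of DropP_of)
open Pool.Agent.Helper99.T5g (OkF)

variable {m : Sq} {k : ℕ}

/-- **near pairs**: same levels, a SPLIT, or a DROP -/
theorem near_cases (hm : m.Ok) (hk0 : 0 < k) : ∃ l0 : ℕ, ∀ l l' : ℕ, l0 ≤ l' → l' ≤ l →
    Near m k l' l → (sL m k l' = sL m k l ∧ bL m k l' = bL m k l) ∨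
      (∃ s, SplitP m k s l' l) ∨ ∃ s, DropP m k s l' l := by
  obtain ⟨l0, h0⟩ := exists_late (k := k) hm 0 0
  refine ⟨l0, fun l l' hl' hll hn => ?_⟩
  obtain ⟨_, h2', _⟩ := h0 l' hl'
  obtain ⟨_, h2, h3, _⟩ := h0 l (hl'.trans hll)
  have hy : mL m k l' ≤ mL m k l := Pool.Agent.Helper48.T5g.mL_mono m k hll
  have hZ : ZZ m k (era (mL m k l')) ≤ ZZ m k (era (mL m k l)) := ZZ_mono hm k (era_mono hy)
  have hd : mL m k l < mL m k l' + ZZ m k (era (mL m k l)) := by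
    unfold Near at hn
    omega
  rcases event_cases hm hy h3 h2' hd with h | h | h | h | h | h | h
  · left
    refine ⟨h.sv_eq, ?_⟩
    unfold bL
    rw [h.dv_eq]
  · left
    refine ⟨h.sv'.trans h.sv.symm, ?_⟩
    unfold bL
    rw [h.dv', h.dv]
  · left
    refine ⟨h.sv'.trans h.sv.symm, ?_⟩
    unfold bL
    rw [h.dv', h.dv]
  · left
    refine ⟨h.sv'.trans h.sv.symm, ?_⟩
    unfold bL
    rw [h.dv', h.dv]
  · left
    refine ⟨h.sv'.trans h.sv.symm, ?_⟩
    unfold bL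
    rw [h.dv', h.dv]
  · right; left
    exact ⟨_, SplitP_of hm hll h⟩
  · right; right
    exact ⟨_, DropP_of hm hk0 hll hd h⟩

theorem TH_card_le_one {V U : Finset ℕ} {q N : ℕ} (hV : V.card ≤ 1) : (TH V U q N).card ≤ 1 := by
  rw [card_le_one] at hV ⊢
  rintro ⟨v, u⟩ h ⟨v', u'⟩ h'
  rw [TH, mem_filter, mem_product] at h h'
  obtain ⟨⟨h0, _⟩, h2⟩ := h
  obtain ⟨⟨h0', _⟩, h2'⟩ := h'
  dsimp only at *
  have e1 : v = v' := hV _ h0 _ h0'
  subst e1
  have e2 : u = u' := by omega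
  rw [e2]

theorem Vw_card (m : Sq) (k l : ℕ) (w : Key → ℕ) : (Vw m k l w).card ≤ 1 :=
  (card_singleton _).le

/-- **the leaf** -/
theorem leaf_card (hm : m.Ok) (hk0 : 0 < k) : ∃ l0 : ℕ, ∀ l l' : ℕ, l0 ≤ l' → l' ≤ l →
    Near m k l' l → ∀ (w : Key → ℕ) (n : ℕ) (x x' : JF → ℕ),
      (HL m k l l' w n x x').card ≤ CB k ^ (k + 2) := by
  obtain ⟨l1, h1⟩ := near_cases hm hk0
  obtain ⟨l2, h2⟩ := exists_late (k := k) hm 0 0
  refine ⟨l1 + l2, fun l l' hl' hll hn w n x x' => ?_⟩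
  obtain ⟨_, hbb', _⟩ := h2 l' (by omega)
  have h0 := CB_pos k
  have h3 : CB k ^ (k + 1) * 1 ≤ CB k ^ (k + 2) := by
    rw [mul_one]
    exact Nat.pow_le_pow_right h0 (by omega)
  rcases h1 l l' (by omega) hll hn with ⟨hs, hb⟩ | ⟨s, hP⟩ | ⟨s, hP⟩
  · exact (leaf_same hm hll hbb' hs hb w n x x' (R := 1)
      (fun N => TH_card_le_one (Vw_card _ _ _ _))).trans h3
  · exact (leaf_split hm hP w n x x' (R := 1)
      (fun N => TH_card_le_one (Vw_card _ _ _ _))).trans h3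
  · refine (leaf_drop hm hP w n x x' (R := 1)
      (fun N => TH_card_le_one (Vw_card _ _ _ _))).trans (le_of_eq ?_)
    ring

/-- powers of the decoding constant -/
theorem CB_pow_le_two (hm : OkF m) {j : ℕ} (hj : j ≤ m.k + 4) : CB m.k ^ j ≤ 2 ^ (3 * m.q 0) := by
  have h1 := hm.k_le_q
  unfold CB
  rw [← pow_mul]
  exact Nat.pow_le_pow_right (by norm_num) (by omega)

/-- **line 4: the leaf** -/
theorem blk_leaf : Blk Near LeafC := by
  refine ⟨3, 1, fun m hm hk => ?_⟩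
  obtain ⟨l0, h0⟩ := leaf_card (m := m) (k := m.k) hm.toOk (by omega)
  refine ⟨l0, 1, 0, one_pos, le_rfl, fun l l' hl' hll _ hn K _ _ => ?_⟩
  refine PrLe_false (fun r _ hw => ?_) (by positivity)
  obtain ⟨c, ⟨n, x, x', hc⟩, hlt⟩ := hw
  have e : c = (HL m m.k l l' (ext K r) n x x').card := hc
  have h1 := h0 l l' hl' hll hn (ext K r) n x x'
  have h2 := CB_pow_le_two hm (j := m.k + 2) (by omega)
  rw [e] at hlt
  exact absurd (h1.trans h2) (not_le.2 hlt)

end Pool.Agent.Helper83.T5g
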