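import Pool.Agent.Helper83.T5g.LeafDec
import Pool.Agent.Helper30.T5g.NLb

/-!
# T5g (MP_12a1af), the leaf: hits with given joint vectors, reduction to the innermost windows
-/

set_option autoImplicit false

namespace Pool.Agent.Helper83.T5g

open Finset Pool.Agent.Helper27.T4 Pool.Agent.Helper37.T5g
open Pool.Agent.Helper5.ET (mask bb era)
open Pool.Agent.Helper30.T5g (pz QF QT RT BP ez NL)
open Pool.Agent.Helper22.HW Pool.Agent.Helper57.T5 Pool.Agent.Helper39.T5
open Pool.Agent.Helper84.T5g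
open Pool.Agent.Helper48.T5g (SplitP DropP)

variable {m : Sq} {k : ℕ}

/-- pairs `(v, u)` with `q * v + u = N` -/
def TH (V U : Finset ℕ) (q N : ℕ) : Finset (ℕ × ℕ) :=
  (V ×ˢ U).filter (fun x => q * x.1 + x.2 = N)

/-- the quotient of the two scales -/
noncomputable def qN (m : Sq) (k l' l : ℕ) : ℕ := NL m k l / NL m k l'

theorem NL_eq_qN (m : Sq) (k : ℕ) {l' l : ℕ} (h : l' ≤ l) : NL m k l = NL m k l' * qN m k l' l :=
  (Nat.mul_div_cancel' (Pool.Agent.Helper30.T5g.NL_dvd m k h)).symm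

theorem qN_pos (m : Sq) (k : ℕ) {l' l : ℕ} (h : l' ≤ l) : 0 < qN m k l' l := by
  have h1 := Pool.Agent.Helper30.T5g.NL_pos m k l
  rw [NL_eq_qN m k h] at h1
  exact Nat.pos_of_mul_pos_left h1

theorem Un_pos (m : Sq) (k l : ℕ) : 0 < Un m k l :=
  Nat.mul_pos (Pool.Agent.Helper48.T5g.Jn_pos _ _ _ _) (Pool.Agent.Helper48.T5g.LL_QQ_pos _ _ _ _)

/-- the units of two states with the same dropped levels -/
theorem Un_eq (hm : m.Ok) {l' l : ℕ} (h : l' ≤ l) (hb : bL m k l' = bL m k l)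
    (hbb : bb 0 ≤ mL m k l') : Un m k l = Un m k l' * qN m k l' l := by
  have h1 := Pool.Agent.Helper48.T5g.Un_mul_RT (k := k) hm hbb
  have h2 := Pool.Agent.Helper48.T5g.Un_mul_RT (k := k) hm
    (hbb.trans (Pool.Agent.Helper48.T5g.mL_mono m k h))
  have h3 := NL_eq_qN m k h
  rw [hb] at h1
  refine Nat.eq_of_mul_eq_mul_right (Pool.Agent.Helper30.T5g.RT_pos m k (bL m k l)) ?_
  rw [h2, h3, ← h1]
  ring

theorem static_dec' (hm : m.Ok) {l t : ℕ} (ht : t < rL m k l) (w : Key → ℕ) (o : JF → ℕ)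
    (T : ℕ) :
    ((Ys m k l t).filter (fun y => cs m k l t w o y ≡ T [MOD QQ m k (sL m k l) t])).card ≤
      CB k := by
  classical
  rcases (Ys m k l t).eq_empty_or_nonempty with h0 | ⟨y0, hy0⟩
  · rw [h0]
    simp
  refine le_trans (card_le_card_of_injOn (fun y => (y, y0)) ?_ ?_)
    (dec_gen hm rfl ht ht w o o (T + cs m k l t w o y0))
  · intro y hy
    rw [mem_coe, mem_filter] at hy
    rw [mem_coe, mem_filter, mem_product]
    exact ⟨⟨hy.1, hy0⟩, hy.2.add_right _⟩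
  · intro y _ y' _ h
    exact congrArg Prod.fst h

/-! ## the windows -/

/-- the fibre of a label when the tails are the windows -/
theorem fiber_windows {l l' : ℕ} {w : Key → ℕ} {n : ℕ} {x x' : JF → ℕ} {A : Type*}
    (lab : Par m k l × Par m k l' → A)
    (hlab : ∀ q ∈ HL m k l l' w n x x', ∀ p ∈ HL m k l l' w n x x', lab q = lab p →
      (∀ t < rL m k l, ye q.1.1.2 t = ye p.1.1.2 t) ∧
        ∀ t < rL m k l', ye q.2.1.2 t = ye p.2.1.2 t) {q0 : ℕ}
    (hU : Un m k l = Un m k l' * q0) {R : ℕ}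
    (hR : ∀ N, (TH (Vw m k l w) (Vw m k l' w) q0 N).card ≤ R) [DecidableEq A] (z : A) (N : ℕ) :
    ((HL m k l l' w n x x').filter (fun q => lab q = z ∧ q.1.2 + q.2.2 = N)).card ≤ R := by
  classical
  have hu := Un_pos m k l
  have hu' := Un_pos m k l'
  refine le_trans (card_le_card_of_injOn (fun q => (q.1.2 / Un m k l, q.2.2 / Un m k l')) ?_ ?_)
    (hR (N / Un m k l'))
  · intro q hq
    rw [mem_coe, mem_filter] at hq
    obtain ⟨_, _, ⟨⟨v, hv, hv2⟩, v', hv', hv2'⟩, _⟩ := mem_HL hq.1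
    rw [mem_coe, TH, mem_filter, mem_product]
    dsimp only
    rw [← hv2, ← hv2', Nat.mul_div_cancel_left _ hu, Nat.mul_div_cancel_left _ hu']
    refine ⟨⟨hv, hv'⟩, ?_⟩
    rw [← hq.2.2, ← hv2, ← hv2', hU]
    have e : Un m k l' * q0 * v + Un m k l' * v' = Un m k l' * (q0 * v + v') := by ring
    rw [e, Nat.mul_div_cancel_left _ hu']
  · intro q hq p hp h
    rw [mem_coe, mem_filter] at hq hp
    obtain ⟨_, _, ⟨⟨v, hv, hv2⟩, v', hv', hv2'⟩, _⟩ := mem_HL hq.1
    obtain ⟨_, _, ⟨⟨z, hz, hz2⟩, z', hz', hz2'⟩, _⟩ := mem_HL hp.1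
    obtain ⟨h1, h2⟩ := Prod.ext_iff.1 h
    simp only at h1 h2
    rw [← hv2, ← hz2, Nat.mul_div_cancel_left _ hu, Nat.mul_div_cancel_left _ hu] at h1
    rw [← hv2', ← hz2', Nat.mul_div_cancel_left _ hu', Nat.mul_div_cancel_left _ hu'] at h2
    obtain ⟨h3, h4⟩ := hlab q hq.1 p hp.1 (hq.2.1.trans hp.2.1.symm)
    exact par_ext hq.1 hp.1 h3 h4 (by rw [← hv2, ← hz2, h1]) (by rw [← hv2', ← hz2', h2])

theorem CB_pow_le {r : ℕ} (hr : r ≤ k + 1) (R : ℕ) :
    (∏ _t ∈ range r, CB k) * R ≤ CB k ^ (k + 1) * R := by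
  rw [prod_const, card_range]
  exact Nat.mul_le_mul_right _ (Nat.pow_le_pow_right (CB_pos k) hr)

/-! ## no SPLIT, no DROP -/

/-- **the leaf, same levels** -/
theorem leaf_same (hm : m.Ok) {l l' : ℕ} (hl : l' ≤ l) (hbb : bb 0 ≤ mL m k l')
    (hs : sL m k l' = sL m k l) (hb : bL m k l' = bL m k l) (w : Key → ℕ) (n : ℕ)
    (x x' : JF → ℕ) {R : ℕ}
    (hR : ∀ N, (TH (Vw m k l w) (Vw m k l' w) (qN m k l' l) N).card ≤ R) :
    (HL m k l l' w n x x').card ≤ CB k ^ (k + 1) * R := by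
  classical
  have hr : rL m k l' = rL m k l := by unfold rL; rw [hs, hb]
  refine (leaf_count (HL m k l l' w n x x') (rL m k l)
    (fun t => Ys m k l t ×ˢ Ys m k l' t)
    (fun t y => cs m k l t w (okey m k l t x) y.1 + cs m k l' t w (okey m k l' t x') y.2)
    (QQ m k (sL m k l)) (fun _ => CB k) ?_ ?_
    (fun q t => (ye q.1.1.2 t, ye q.2.1.2 t)) ?_ (c0 m k l w x + c0 m k l' w x') n
    (fun q => q.1.2) (fun q => q.2.2) ?_ ?_ ?_ R ?_).trans
      (CB_pow_le (Pool.Agent.Helper48.T5g.rL_bounds hm k l).2 R)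
  · intro t _ y _
    refine dvd_add ((dvd_mul_left _ _).trans (Pool.Agent.Helper48.T5g.cs_dvd m k l t w _ _)) ?_
    have h1 := Pool.Agent.Helper48.T5g.cs_dvd m k l' t w (okey m k l' t x') y.2
    rw [hs] at h1
    exact (dvd_mul_left _ _).trans h1
  · intro t ht T
    exact dec_gen hm (by rw [hs]) ht (by rw [hr]; exact ht) w _ _ T
  · intro q hq t
    obtain ⟨_, ⟨h1, h2⟩, _⟩ := mem_HL hq
    exact mem_product.2 ⟨h1 t t.2, h2 t (by rw [hr]; exact t.2)⟩
  · intro q hq
    obtain ⟨_, _, ⟨⟨v, _, hv⟩, _⟩, _⟩ := mem_HL hq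
    show _ ∣ q.1.2
    rw [← hv]
    exact (dvd_mul_left _ _).mul_right _
  · intro q hq
    obtain ⟨_, _, ⟨_, v, _, hv⟩, _⟩ := mem_HL hq
    show _ ∣ q.2.2
    rw [← hv, ← hs, ← hr]
    exact (dvd_mul_left _ _).mul_right _
  · intro q hq
    obtain ⟨_, _, _, h1⟩ := mem_HL hq
    have e : ∑ t ∈ range (rL m k l'), cs m k l' t w (okey m k l' t x') (ye q.2.1.2 t) =
        ∑ t ∈ range (rL m k l), cs m k l' t w (okey m k l' t x') (ye q.2.1.2 t) :=
      Finset.sum_congr (by rw [hr]) (fun _ _ => rfl)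
    rw [← h1, Finset.sum_add_distrib,
      Fin.sum_univ_eq_sum_range (fun t => cs m k l t w (okey m k l t x) (ye q.1.1.2 t)),
      Fin.sum_univ_eq_sum_range (fun t => cs m k l' t w (okey m k l' t x') (ye q.2.1.2 t)), e]
  · intro z N
    refine fiber_windows (fun (q : Par m k l × Par m k l') (t : Fin (rL m k l)) =>
      (ye q.1.1.2 t, ye q.2.1.2 t)) ?_ (Un_eq hm hl hb hbb) hR z N
    intro q _ p _ h
    refine ⟨fun t ht => ?_, fun t ht => ?_⟩
    · exact congrArg Prod.fst (congrFun h ⟨t, ht⟩)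
    · rw [hr] at ht
      exact congrArg Prod.snd (congrFun h ⟨t, ht⟩)

/-! ## SPLIT -/

/-- **the leaf across a SPLIT** -/
theorem leaf_split (hm : m.Ok) {s l l' : ℕ} (h : SplitP m k s l' l) (w : Key → ℕ) (n : ℕ)
    (x x' : JF → ℕ) {R : ℕ}
    (hR : ∀ N, (TH (Vw m k l w) (Vw m k l' w) (qN m k l' l) N).card ≤ R) :
    (HL m k l l' w n x x').card ≤ CB k ^ (k + 1) * R := by
  classical
  have hr := h.rL_succ
  have hr' := h.rL'
  have hs1 := h.s1
  have hs' := h.s'
  have hbb : bb 0 ≤ mL m k l' :=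
    (h.win l' le_rfl (h.le.trans (Nat.le_add_right _ _))).bb0 hm
  have hb : bL m k l' = bL m k l := h.b'.trans h.b1.symm
  refine (leaf_count (HL m k l l' w n x x') (rL m k l)
    (fun t => Ys m k l t ×ˢ (if t = 0 then {0} else Ys m k l' (t - 1)))
    (fun t y => cs m k l t w (okey m k l t x) y.1 +
      (if t = 0 then 0 else cs m k l' (t - 1) w (okey m k l' (t - 1) x') y.2))
    (QQ m k (s + 1)) (fun _ => CB k) ?_ ?_
    (fun q t => (ye q.1.1.2 t, if (t : ℕ) = 0 then 0 else ye q.2.1.2 ((t : ℕ) - 1))) ?_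
    (c0 m k l w x + c0 m k l' w x') n
    (fun q => q.1.2) (fun q => q.2.2) ?_ ?_ ?_ R ?_).trans
      (CB_pow_le (Pool.Agent.Helper48.T5g.rL_bounds hm k l).2 R)
  · intro t _ y _
    have h1 := Pool.Agent.Helper48.T5g.cs_dvd m k l t w (okey m k l t x) y.1
    rw [hs1] at h1
    refine dvd_add ((dvd_mul_left _ _).trans h1) ?_
    show _ ∣ if t = 0 then 0 else cs m k l' (t - 1) w (okey m k l' (t - 1) x') y.2
    split_ifs with h0
    · exact dvd_zero _
    · have h2 := h.cs_lower_dvd hm (t - 1) w (okey m k l' (t - 1) x') y.2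
      rw [show t - 1 + 1 = t by omega] at h2
      exact (dvd_mul_left _ _).trans h2
  · intro t ht T
    by_cases h0 : t = 0
    · subst h0
      have h1 := static_dec' hm (k := k) (l := l) (t := 0) ht w (okey m k l 0 x) T
      rw [hs1] at h1
      refine le_trans (card_le_card_of_injOn (fun y => y.1) ?_ ?_) h1
      · intro y hy
        rw [mem_coe, mem_filter, mem_product] at hy
        rw [mem_coe, mem_filter]
        exact ⟨hy.1.1, by simpa using hy.2⟩
      · intro y hy y' hy' hyy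
        rw [mem_coe, mem_filter, mem_product] at hy hy'
        have a1 := hy.1.2
        have a2 := hy'.1.2
        rw [if_pos rfl, mem_singleton] at a1 a2
        exact Prod.ext hyy (a1.trans a2.symm)
    · have h1 := dec_gen (k := k) hm (l := l) (l' := l') (t := t) (t' := t - 1)
        (by rw [hs', hs1]; omega) ht (by omega) w (okey m k l t x) (okey m k l' (t - 1) x') T
      rw [hs1] at h1
      rw [if_neg h0]
      simp only [if_neg h0]
      exact h1
  · intro q hq t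
    obtain ⟨_, ⟨h1, h2⟩, _⟩ := mem_HL hq
    refine mem_product.2 ⟨h1 t t.2, ?_⟩
    show (if (t : ℕ) = 0 then 0 else ye q.2.1.2 ((t : ℕ) - 1)) ∈
      if (t : ℕ) = 0 then {0} else Ys m k l' ((t : ℕ) - 1)
    split_ifs with h0
    · exact mem_singleton_self _
    · exact h2 _ (by have := t.2; omega)
  · intro q hq
    obtain ⟨_, _, ⟨⟨v, _, hv⟩, _⟩, _⟩ := mem_HL hq
    show _ ∣ q.1.2
    rw [← hv, h.Un_upper]
    exact (dvd_mul_left _ _).mul_right _
  · intro q hq
    obtain ⟨_, _, ⟨_, v, _, hv⟩, _⟩ := mem_HL hq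
    show _ ∣ q.2.2
    rw [← hv, h.Un_lower hm, hr]
    exact (dvd_mul_left _ _).mul_right _
  · intro q hq
    obtain ⟨_, _, _, h1⟩ := mem_HL hq
    rw [← h1, Finset.sum_add_distrib,
      Fin.sum_univ_eq_sum_range (fun t => cs m k l t w (okey m k l t x) (ye q.1.1.2 t)),
      Fin.sum_univ_eq_sum_range (fun t => if t = 0 then 0 else
        cs m k l' (t - 1) w (okey m k l' (t - 1) x') (if t = 0 then 0 else ye q.2.1.2 (t - 1)))]
    have h2 : ∑ t ∈ range (rL m k l), (if t = 0 then 0 else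
        cs m k l' (t - 1) w (okey m k l' (t - 1) x') (if t = 0 then 0 else ye q.2.1.2 (t - 1))) =
        ∑ t ∈ range (rL m k l'), cs m k l' t w (okey m k l' t x') (ye q.2.1.2 t) := by
      rw [hr, Finset.sum_range_succ']
      simp
    rw [h2]
  · intro z N
    refine fiber_windows (fun (q : Par m k l × Par m k l') (t : Fin (rL m k l)) =>
      (ye q.1.1.2 t, if (t : ℕ) = 0 then 0 else ye q.2.1.2 ((t : ℕ) - 1))) ?_
      (Un_eq hm h.le hb hbb) hR z N
    intro q _ p _ hqp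
    refine ⟨fun t ht => ?_, fun t ht => ?_⟩
    · exact congrArg Prod.fst (congrFun hqp ⟨t, ht⟩)
    · have h2 := congrArg Prod.snd (congrFun hqp ⟨t + 1, by omega⟩)
      simpa using h2

/-! ## DROP -/

/-- **the leaf across a DROP** -/
theorem leaf_drop (hm : m.Ok) {s l l' : ℕ} (h : DropP m k s l' l) (w : Key → ℕ) (n : ℕ)
    (x x' : JF → ℕ) {R : ℕ}
    (hR : ∀ N, (TH (Vw m k l w) (DropP.UD m k l' w) (qN m k l' l) N).card ≤ R) :
    (HL m k l l' w n x x').card ≤ CB k ^ (k + 1) * (CB k * R) := by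
  classical
  have hr1 := h.rL1
  have hr' := h.rL'
  have hs1 := h.s1
  have hs' := h.s'
  have hk := h.kpos
  have hbb : bb 0 ≤ mL m k l' :=
    (h.win l' le_rfl (h.le.trans (Nat.le_add_right _ _))).bb0 hm
  set U0 := Jn m k (s + 1) l' * LL (QQ m k (s + 1)) k with hU0
  have hU0pos : 0 < U0 :=
    Nat.mul_pos (Pool.Agent.Helper48.T5g.Jn_pos _ _ _ _)
      (Pool.Agent.Helper48.T5g.LL_QQ_pos _ _ _ _)
  have hUl : Un m k l' = U0 * QQ m k (s + 1) k := h.Un_lower
  have hUn : Un m k l = U0 * qN m k l' l := by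
    have h1 := Pool.Agent.Helper48.T5g.Un_mul_RT (k := k) hm hbb
    have h2 := Pool.Agent.Helper48.T5g.Un_mul_RT (k := k) hm
      (hbb.trans (Pool.Agent.Helper48.T5g.mL_mono m k h.le))
    have h3 := NL_eq_qN m k h.le
    have h4 : RT m k (bL m k l) = RT m k (bL m k l') * QQ m k (s + 1) k := by
      rw [h.QQ_inner, h.bL_succ, Pool.Agent.Helper30.T5g.RT_succ]
    refine Nat.eq_of_mul_eq_mul_right (Pool.Agent.Helper30.T5g.RT_pos m k (bL m k l)) ?_
    rw [h2, h3, ← h1, hUl, h4]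
    ring
  have hok : okey m k l' k x' = 0 := Pool.Agent.Helper48.T5g.okey_pos hk x'
  -- the tails of the lower state
  have hUD := h.UD_image hm w
  have hbq : ∀ q ∈ HL m k l l' w n x x', ∃ u ∈ DropP.UD m k l' w,
      U0 * u = cs m k l' k w 0 (ye q.2.1.2 k) + q.2.2 := by
    intro q hq
    obtain ⟨_, ⟨_, h2⟩, ⟨_, v, hv, hv2⟩, _⟩ := mem_HL hq
    have h3 : cs m k l' k w 0 (ye q.2.1.2 k) + q.2.2 ∈
        (Ys m k l' k ×ˢ (Vw m k l' w).image (fun v => Un m k l' * v)).image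
          (fun q => cs m k l' k w 0 q.1 + q.2) := by
      rw [mem_image]
      refine ⟨(ye q.2.1.2 k, q.2.2), ?_, rfl⟩
      rw [mem_product, mem_image]
      exact ⟨h2 k (by omega), v, hv, hv2⟩
    rw [hUD, mem_image] at h3
    exact h3
  refine (leaf_count (HL m k l l' w n x x') (rL m k l)
    (fun t => Ys m k l t ×ˢ Ys m k l' t)
    (fun t y => cs m k l t w (okey m k l t x) y.1 + cs m k l' t w (okey m k l' t x') y.2)
    (QQ m k (s + 1)) (fun _ => CB k) ?_ ?_
    (fun q t => (ye q.1.1.2 t, ye q.2.1.2 t)) ?_ (c0 m k l w x + c0 m k l' w x') n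
    (fun q => q.1.2) (fun q => cs m k l' k w 0 (ye q.2.1.2 k) + q.2.2) ?_ ?_ ?_ (CB k * R)
    ?_).trans (CB_pow_le (Pool.Agent.Helper48.T5g.rL_bounds hm k l).2 (CB k * R))
  · intro t _ y _
    have h1 := Pool.Agent.Helper48.T5g.cs_dvd m k l t w (okey m k l t x) y.1
    have h2 := Pool.Agent.Helper48.T5g.cs_dvd m k l' t w (okey m k l' t x') y.2
    rw [hs1] at h1
    rw [hs'] at h2
    exact dvd_add ((dvd_mul_left _ _).trans h1) ((dvd_mul_left _ _).trans h2)
  · intro t ht T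
    have h1 := dec_gen (k := k) hm (l := l) (l' := l') (t := t) (t' := t)
        (by rw [hs', hs1]) ht (by omega) w (okey m k l t x) (okey m k l' t x') T
    rw [hs1] at h1
    exact h1
  · intro q hq t
    obtain ⟨_, ⟨h1, h2⟩, _⟩ := mem_HL hq
    have := t.2
    exact mem_product.2 ⟨h1 t t.2, h2 t (by omega)⟩
  · intro q hq
    obtain ⟨_, _, ⟨⟨v, _, hv⟩, _⟩, _⟩ := mem_HL hq
    show _ ∣ q.1.2
    rw [← hv, h.Un_upper, hr1]
    exact (dvd_mul_left _ _).mul_right _
  · intro q hq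
    obtain ⟨u, _, hu⟩ := hbq q hq
    show _ ∣ cs m k l' k w 0 (ye q.2.1.2 k) + q.2.2
    rw [← hu, hr1]
    exact (dvd_mul_left _ _).mul_right _
  · intro q hq
    obtain ⟨_, _, _, h1⟩ := mem_HL hq
    have e : ∑ t ∈ range (rL m k l'), cs m k l' t w (okey m k l' t x') (ye q.2.1.2 t) =
        ∑ t ∈ range (rL m k l), cs m k l' t w (okey m k l' t x') (ye q.2.1.2 t) +
          cs m k l' k w 0 (ye q.2.1.2 k) := by
      have e1 : ∑ t ∈ range (rL m k l'), cs m k l' t w (okey m k l' t x') (ye q.2.1.2 t) =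
          ∑ t ∈ range (k + 1), cs m k l' t w (okey m k l' t x') (ye q.2.1.2 t) :=
        Finset.sum_congr (by rw [hr']) (fun _ _ => rfl)
      have e2 : ∑ t ∈ range (rL m k l), cs m k l' t w (okey m k l' t x') (ye q.2.1.2 t) =
          ∑ t ∈ range k, cs m k l' t w (okey m k l' t x') (ye q.2.1.2 t) :=
        Finset.sum_congr (by rw [hr1]) (fun _ _ => rfl)
      rw [e1, e2, Finset.sum_range_succ, hok]
    rw [← h1, Finset.sum_add_distrib,
      Fin.sum_univ_eq_sum_range (fun t => cs m k l t w (okey m k l t x) (ye q.1.1.2 t)),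
      Fin.sum_univ_eq_sum_range (fun t => cs m k l' t w (okey m k l' t x') (ye q.2.1.2 t)), e]
    ring
  · intro z N
    -- pairs of the innermost windows
    set f : Par m k l × Par m k l' → ℕ × ℕ := fun q => (q.1.2 / Un m k l,
      (cs m k l' k w 0 (ye q.2.1.2 k) + q.2.2) / U0) with hf
    refine (Finset.card_le_mul_card_image_of_maps_to (f := f)
      (t := TH (Vw m k l w) (DropP.UD m k l' w) (qN m k l' l) (N / U0)) ?_ (CB k) ?_).trans
      (Nat.mul_le_mul_left _ (hR _))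
    · intro q hq
      rw [mem_filter] at hq
      obtain ⟨_, _, ⟨⟨v, hv, hv2⟩, _⟩, _⟩ := mem_HL hq.1
      obtain ⟨u, hu, hu2⟩ := hbq q hq.1
      have h5 := hq.2.2
      rw [← hu2, ← hv2, hUn] at h5
      rw [hf, TH, mem_filter, mem_product]
      simp only
      rw [← hu2, ← hv2, Nat.mul_div_cancel_left _ (Un_pos m k l),
        Nat.mul_div_cancel_left _ hU0pos]
      refine ⟨⟨hv, hu⟩, ?_⟩
      have e : U0 * qN m k l' l * v + U0 * u = U0 * (qN m k l' l * v + u) := by ring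
      rw [← h5, e, Nat.mul_div_cancel_left _ hU0pos]
    · rintro ⟨v, u⟩ _
      have hdec := static_dec' hm (k := k) (l := l') (t := k) (by omega) w 0 (U0 * u)
      refine le_trans (card_le_card_of_injOn (fun q => ye q.2.1.2 k) ?_ ?_) hdec
      · intro q hq
        rw [mem_coe, mem_filter, mem_filter] at hq
        obtain ⟨⟨h1, _⟩, h2⟩ := hq
        obtain ⟨_, ⟨_, h3⟩, ⟨_, v', _, hv'⟩, _⟩ := mem_HL h1
        obtain ⟨u', _, hu'⟩ := hbq q h1
        have h4 := congrArg Prod.snd h2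
        simp only [hf] at h4
        rw [← hu', Nat.mul_div_cancel_left _ hU0pos] at h4
        rw [mem_coe, mem_filter]
        refine ⟨h3 k (by omega), ?_⟩
        rw [← h4, hu']
        have h5 : QQ m k (sL m k l') k ∣ q.2.2 := by
          rw [← hv', hUl, hs']
          exact (dvd_mul_left _ _).mul_right _
        have h6 := (Nat.ModEq.refl (n := QQ m k (sL m k l') k)
          (cs m k l' k w 0 (ye q.2.1.2 k))).add ((Nat.modEq_zero_iff_dvd).2 h5)
        rw [add_zero] at h6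
        exact h6.symm
      · intro q hq p hp hqp
        rw [mem_coe, mem_filter, mem_filter] at hq hp
        obtain ⟨⟨h1, h2, _⟩, h3⟩ := hq
        obtain ⟨⟨g1, g2, _⟩, g3⟩ := hp
        obtain ⟨_, _, ⟨⟨v1, _, hv1⟩, _⟩, _⟩ := mem_HL h1
        obtain ⟨_, _, ⟨⟨v2, _, hv2⟩, _⟩, _⟩ := mem_HL g1
        obtain ⟨u1, _, hu1⟩ := hbq q h1
        obtain ⟨u2, _, hu2⟩ := hbq p g1
        have h4 := h3.trans g3.symm
        simp only [hf, Prod.mk.injEq] at h4
        obtain ⟨h5, h6⟩ := h4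
        rw [← hv1, ← hv2, Nat.mul_div_cancel_left _ (Un_pos m k l),
          Nat.mul_div_cancel_left _ (Un_pos m k l)] at h5
        rw [← hu1, ← hu2, Nat.mul_div_cancel_left _ hU0pos,
          Nat.mul_div_cancel_left _ hU0pos] at h6
        have hqp' : ye q.2.1.2 k = ye p.2.1.2 k := hqp
        have h7 := h2.trans g2.symm
        refine par_ext h1 g1 (fun t ht => congrArg Prod.fst (congrFun h7 ⟨t, ht⟩))
          (fun t ht => ?_) (by rw [← hv1, ← hv2, h5]) ?_
        · rcases Nat.eq_or_lt_of_le (show t ≤ k by omega) with h8 | h8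
          · rw [h8]
            exact hqp'
          · exact congrArg Prod.snd (congrFun h7 ⟨t, by omega⟩)
        · rw [h6, hu2, hqp'] at hu1
          omega

end Pool.Agent.Helper83.T5g
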